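import Pool.Agent.H73.PHS.Stmts

/-!
# Board phs, row HFC
-/

set_option autoImplicit false

open Set Filter Topology MeasureTheory Metric

namespace Pool.PHS

theorem hfc_conn {n : ℕ} {D K : Set (Cn n)} (hD : IsConnected D) (hK : IsClosed K)
    (hDK : Disjoint D K) (hopen : IsOpen (D ∪ K)) : IsPreconnected (D ∪ K) := by
  have key : ∀ u v : Set (Cn n), IsOpen u → IsOpen v → D ∪ K ⊆ u ∪ v →
      (D ∪ K) ∩ (u ∩ v) = ∅ → D ⊆ u → D ∪ K ⊆ u := by
    intro u v hu hv huv hdis hDu
    have hVK : (D ∪ K) ∩ v ⊆ K := by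
      rintro z ⟨hz | hz, hzv⟩
      · exfalso
        have : z ∈ (D ∪ K) ∩ (u ∩ v) := ⟨Or.inl hz, hDu hz, hzv⟩
        rw [hdis] at this
        exact this
      · exact hz
    have hcl : IsClopen ((D ∪ K) ∩ v) := by
      refine ⟨?_, hopen.inter hv⟩
      rw [← closure_subset_iff_isClosed]
      intro z hz
      have hzK : z ∈ K := closure_minimal hVK hK hz
      rcases huv (Or.inr hzK) with h | h
      · exfalso
        obtain ⟨y, hy1, hy2⟩ := mem_closure_iff.1 hz (u ∩ (D ∪ K)) (hu.inter hopen)
          ⟨h, Or.inr hzK⟩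
        have : y ∈ (D ∪ K) ∩ (u ∩ v) := ⟨hy2.1, hy1.1, hy2.2⟩
        rw [hdis] at this
        exact this
      · exact ⟨Or.inr hzK, h⟩
    rcases isClopen_iff.1 hcl with h | h
    · intro z hz
      rcases huv hz with h1 | h1
      · exact h1
      · exfalso
        have : z ∈ (D ∪ K) ∩ v := ⟨hz, h1⟩
        rw [h] at this
        exact this
    · exfalso
      obtain ⟨z, hz⟩ := hD.nonempty
      have h1 : z ∈ (D ∪ K) ∩ v := by rw [h]; trivial
      exact Set.disjoint_left.1 hDK hz (hVK h1)
  rw [isPreconnected_iff_subset_of_disjoint]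
  intro u v hu hv huv hdis
  have h1 := isPreconnected_iff_subset_of_disjoint.1 hD.isPreconnected u v hu hv
    (Set.subset_union_left.trans huv) (by
      rw [Set.eq_empty_iff_forall_notMem] at hdis ⊢
      exact fun z hz => hdis z ⟨Or.inl hz.1, hz.2⟩)
  rcases h1 with h1 | h1
  · exact Or.inl (key u v hu hv huv hdis h1)
  · exact Or.inr (key v u hv hu (by rwa [Set.union_comm v u]) (by rwa [Set.inter_comm v u]) h1)

theorem hfc_thm : HFCStmt := by
  intro n hn D E K hH
  haveI : Nonempty (Fin n) := ⟨⟨0, by omega⟩⟩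
  have hDK : Disjoint D K := by
    rw [Set.disjoint_left]
    intro z hzD hzK
    have : z ∈ Dᶜ := by rw [hH.compl]; exact Or.inr hzK
    exact this hzD
  have hDE : Disjoint D E := by
    rw [Set.disjoint_left]
    intro z hzD hzE
    have : z ∈ Dᶜ := by rw [hH.compl]; exact Or.inl hzE
    exact this hzD
  have hcompl : (D ∪ K)ᶜ = E := by
    ext z
    constructor
    · intro hz
      have h1 : z ∈ Dᶜ := fun h => hz (Or.inl h)
      rw [hH.compl] at h1
      rcases h1 with h1 | h1
      · exact h1
      · exact absurd (Or.inr h1) hz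
    · intro hz h
      rcases h with h | h
      · exact Set.disjoint_left.1 hDE h hz
      · exact Set.disjoint_left.1 hH.disj hz h
  have hopen : IsOpen (D ∪ K) := by
    rw [← isClosed_compl_iff, hcompl]
    exact hH.closed_E
  have hbdd : Bornology.IsBounded (D ∪ K) := hH.bdd_D.union hH.comp_K.isBounded
  have hunb : ¬ Bornology.IsBounded E := by
    intro h
    have h1 : Bornology.IsBounded (univ : Set (Cn n)) := by
      rw [← Set.union_compl_self (D ∪ K), hcompl]
      exact hbdd.union h
    exact NormedSpace.unbounded_univ ℂ (Cn n) h1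
  have hne : E.Nonempty := by
    rw [Set.nonempty_iff_ne_empty]
    intro h
    exact hunb (h ▸ Bornology.isBounded_empty)
  refine ⟨hopen, hbdd, ⟨hH.conn_D.nonempty.mono Set.subset_union_left,
    hfc_conn hH.conn_D hH.comp_K.isClosed hDK hopen⟩, hcompl, hunb, hne, ?_⟩
  intro δ hδ
  by_contra hcon
  push Not at hcon
  have hKne : K.Nonempty := hH.int_K.mono interior_subset
  obtain ⟨k, hk, hmin⟩ := hH.comp_K.exists_isMinOn hKne
    (continuous_infDist_pt E).continuousOn
  have hkE : 0 < infDist k E := by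
    rw [← hH.closed_E.notMem_iff_infDist_pos hne]
    exact fun h => Set.disjoint_left.1 hH.disj h hk
  have hopE : thickening (min δ (infDist k E)) E = E := by
    refine Set.Subset.antisymm ?_ (self_subset_thickening (lt_min hδ hkE) E)
    intro z hz
    rw [mem_thickening_iff_infDist_lt hne] at hz
    by_contra hzE
    have hz' : z ∈ D ∪ K := by
      by_contra h
      have : z ∈ (D ∪ K)ᶜ := h
      rw [hcompl] at this
      exact hzE this
    rcases hz' with h | h
    · exact absurd (hz.trans_le (min_le_left _ _)) (not_lt.2 (hcon z h))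
    · exact absurd (hz.trans_le (min_le_right _ _)) (not_lt.2 (hmin h))
  have hclopen : IsClopen E := ⟨hH.closed_E, hopE ▸ isOpen_thickening⟩
  rcases isClopen_iff.1 hclopen with h | h
  · exact hne.ne_empty h
  · obtain ⟨z, hz⟩ := hH.conn_D.nonempty
    exact Set.disjoint_left.1 hDE hz (h ▸ Set.mem_univ z)

end Pool.PHS
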