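import Pool.Agent.H73.PHS.Stmts

/-!
# Board phs, row RNG
-/

set_option autoImplicit false

open Set Filter Topology MeasureTheory Metric

namespace Pool.PHS

theorem rng_thm (hOPN : OPNStmt) (hHFC : HFCStmt) (hNDE : NDEStmt) : RNGStmt := by
  intro n hn D E K f F hH hf hF hFf
  obtain ⟨hopen, hbdd, hconn, hcompl, hunb, hne, -⟩ := hHFC n hn D E K hH
  have hnd := hNDE n hn D E K f F hH hf hF hFf
  obtain ⟨L, hL, hKL, hLΩ⟩ := exists_compact_between hH.comp_K hopen Set.subset_union_right
  have hUΩ : interior L ⊆ D ∪ K := interior_subset.trans hLΩ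
  have hFL : ContinuousOn F L := (hF.mono hLΩ).continuousOn
  have hsub : E ∩ F '' (interior L) = ∅ := by
    by_contra hcon
    have h1 := hOPN n (interior L) E F isOpen_interior (hF.mono hUΩ)
      (fun O hO hOU hOn => hnd O hO (hOU.trans hUΩ) hOn) hH.conn_E (by
        intro w hw
        have hC : IsCompact (L \ interior L) := hL.diff isOpen_interior
        have hCD : L \ interior L ⊆ D := by
          rintro z ⟨hz1, hz2⟩
          rcases hLΩ hz1 with h | h
          · exact h
          · exact absurd (hKL h) hz2
        have hFC : IsCompact (F '' (L \ interior L)) :=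
          hC.image_of_continuousOn (hFL.mono Set.sdiff_subset)
        have hw' : w ∈ (F '' (L \ interior L))ᶜ := by
          rintro ⟨z, hz, rfl⟩
          rw [hFf (hCD hz)] at hw
          have h2 : f z ∈ D := hf.maps (hCD hz)
          rw [← hcompl] at hw
          exact hw (Or.inl h2)
        obtain ⟨ε, hε, hball⟩ := Metric.isOpen_iff.1 hFC.isClosed.isOpen_compl w hw'
        refine ⟨ε / 2, by linarith, ?_⟩
        have heq : {z | z ∈ interior L ∧ ‖F z - w‖ ≤ ε / 2} = L ∩ F ⁻¹' closedBall w (ε / 2) := by
          ext z
          constructor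
          · rintro ⟨h2, h3⟩
            refine ⟨interior_subset h2, ?_⟩
            rw [Set.mem_preimage, mem_closedBall, dist_eq_norm]
            exact h3
          · rintro ⟨h2, h3⟩
            rw [Set.mem_preimage, mem_closedBall, dist_eq_norm] at h3
            refine ⟨?_, h3⟩
            by_contra h4
            have h5 : F z ∈ ball w ε := by
              rw [mem_ball, dist_eq_norm]
              linarith
            exact hball h5 ⟨z, ⟨h2, h4⟩, rfl⟩
        rw [heq]
        exact hL.of_isClosed_subset (hFL.preimage_isClosed_of_isClosed hL.isClosed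
          isClosed_closedBall) Set.inter_subset_left)
      (Set.nonempty_iff_ne_empty.2 hcon)
    apply hunb
    refine (hL.image_of_continuousOn hFL).isBounded.subset ?_
    exact h1.trans (Set.image_mono interior_subset)
  intro z hz
  rcases hz with hz | hz
  · rw [hFf hz]
    exact Or.inl (hf.maps hz)
  · by_contra h
    have h1 : F z ∈ (D ∪ K)ᶜ := h
    rw [hcompl] at h1
    have h2 : F z ∈ E ∩ F '' (interior L) := ⟨h1, z, hKL hz, rfl⟩
    rw [hsub] at h2
    exact h2

end Pool.PHS
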